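import Pool.Agent.H86.EssC

set_option autoImplicit false

namespace Pool.Agent.Results.MP_15dca6_an.EssConn

open Pool.Agent.H86.Ess

theorem result (H : Type*) [NormedAddCommGroup H] [InnerProductSpace ℂ H] [CompleteSpace H]
    (hH : ¬ FiniteDimensional ℂ H) (T : H →L[ℂ] H) (hT : QH T) :
    IsConnected (ess T) ∧
      ∀ (c : ℂ) (r R : ℝ), 0 < r → r < R → ess T ≠ Metric.sphere c r ∪ Metric.sphere c R :=
  ⟨main hT hH, fun _ _ _ h0 h1 e => not_two h0 h1 (e ▸ (main hT hH).2)⟩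

end Pool.Agent.Results.MP_15dca6_an.EssConn
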